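import Pool.Agent.L0h13.EF.Stm

/-!
# Project EF (helper13), module DET (helper72): a highest weight vector of rectangular weight
-/

set_option autoImplicit false

namespace Pool.Agent.L0h13.EF

universe u

open Equiv Pool.Agent.L0h13.SD

namespace DET

variable {K : Type u} [Field K] {m n : ℕ}

/-- the matrix of a block -/
def MM (K : Type u) [Field K] {m n : ℕ} (v : Fin m → Fin (m + n)) : Matrix (Fin m) (Fin m) K :=
  fun k c => if v k = Fin.castAdd n c then 1 else 0

/-- the sign of a block -/
noncomputable def sg (K : Type u) [Field K] {m n : ℕ} (v : Fin m → Fin (m + n)) : K := (MM K v).det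

lemma row_ne {v : Fin m → Fin (m + n)} (h : sg K v ≠ 0) (k : Fin m) :
    ∃ c : Fin m, v k = Fin.castAdd n c := by
  by_contra hc
  push Not at hc
  exact h (Matrix.det_eq_zero_of_row_eq_zero k fun c => if_neg (hc c))

lemma col_ne {v : Fin m → Fin (m + n)} (h : sg K v ≠ 0) (c : Fin m) :
    ∃ k : Fin m, v k = Fin.castAdd n c := by
  by_contra hc
  push Not at hc
  exact h (Matrix.det_eq_zero_of_column_eq_zero c fun k => if_neg (hc k))

lemma card_block {v : Fin m → Fin (m + n)} (h : sg K v ≠ 0) (a : Fin (m + n)) :
    (Finset.univ.filter fun k => v k = a).card = if (a : ℕ) < m then 1 else 0 := by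
  choose g hg using row_ne h
  have hsurj : Function.Surjective g := by
    intro c
    obtain ⟨k, hk⟩ := col_ne h c
    exact ⟨k, Fin.castAdd_injective m n (by rw [← hg, hk])⟩
  have hinj : Function.Injective g := Finite.injective_iff_surjective.2 hsurj
  split_ifs with ha
  · obtain ⟨c, rfl⟩ : ∃ c : Fin m, a = Fin.castAdd n c := ⟨⟨a, ha⟩, rfl⟩
    obtain ⟨k, hk⟩ := hsurj c
    rw [Finset.card_eq_one]
    refine ⟨k, ?_⟩
    ext k'
    rw [Finset.mem_filter, Finset.mem_singleton, hg]
    constructor
    · rintro ⟨-, h'⟩
      exact hinj ((Fin.castAdd_injective m n h').trans hk.symm)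
    · rintro rfl
      exact ⟨Finset.mem_univ _, by rw [hk]⟩
  · rw [Finset.card_eq_zero, Finset.filter_eq_empty_iff]
    intro k _ hk
    rw [hg] at hk
    apply ha
    rw [← hk]
    exact (g k).2

lemma block_sum (v : Fin m → Fin (m + n)) (a b : Fin m) (hab : a ≠ b) :
    ∑ k : Fin m, (if v k = Fin.castAdd n a then
      sg K (Function.update v k (Fin.castAdd n b)) else 0) = 0 := by
  have h1 : ∀ k : Fin m, (if v k = Fin.castAdd n a then
      sg K (Function.update v k (Fin.castAdd n b)) else 0) =
      (MM K v).adjugate b k * MM K v k a := by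
    intro k
    have e : MM K (Function.update v k (Fin.castAdd n b)) =
        (MM K v).updateRow k (Pi.single b 1) := by
      ext i j
      unfold MM
      by_cases hi : i = k
      · subst hi
        rw [Matrix.updateRow_self, Function.update_self, Pi.single_apply]
        by_cases hj : j = b
        · rw [if_pos hj, if_pos (by rw [hj])]
        · rw [if_neg hj, if_neg fun h => hj (Fin.castAdd_injective m n h).symm]
      · rw [Matrix.updateRow_ne hi, Function.update_of_ne hi]
    rw [Matrix.adjugate_apply, ← e]
    unfold sg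
    show _ = _ * (if v k = Fin.castAdd n a then (1 : K) else 0)
    split_ifs
    · rw [mul_one]
    · rw [mul_zero]
  rw [Finset.sum_congr rfl fun k _ => h1 k]
  have h2 := congrFun (congrFun (Matrix.adjugate_mul (MM K v)) b) a
  rw [Matrix.mul_apply, Matrix.smul_apply, Matrix.one_apply_ne hab.symm, smul_zero] at h2
  exact h2

/-- a block of a word -/
def blo (w : Fin (m * n) → Fin (m + n)) (i : Fin n) : Fin m → Fin (m + n) :=
  fun k => w (finProdFinEquiv (k, i))

lemma blo_update_same (w : Fin (m * n) → Fin (m + n)) (i : Fin n) (k : Fin m) (b : Fin (m + n)) :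
    blo (Function.update w (finProdFinEquiv (k, i)) b) i = Function.update (blo w i) k b := by
  funext k'
  unfold blo
  by_cases h : k' = k
  · subst h
    rw [Function.update_self, Function.update_self]
  · rw [Function.update_of_ne, Function.update_of_ne h]
    intro h'
    exact h (congrArg Prod.fst (finProdFinEquiv.injective h'))

lemma blo_update_ne (w : Fin (m * n) → Fin (m + n)) {i i' : Fin n} (hi : i' ≠ i) (k : Fin m)
    (b : Fin (m + n)) :
    blo (Function.update w (finProdFinEquiv (k, i)) b) i' = blo w i' := by
  funext k'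
  unfold blo
  rw [Function.update_of_ne]
  intro h'
  exact hi (congrArg Prod.snd (finProdFinEquiv.injective h'))

/-- the product of the signs of the blocks -/
noncomputable def FF (K : Type u) [Field K] (m n : ℕ) (w : Fin (m * n) → Fin (m + n)) : K :=
  ∏ i : Fin n, sg K (blo w i)

lemma FF_update (w : Fin (m * n) → Fin (m + n)) (i : Fin n) (k : Fin m) (b : Fin (m + n)) :
    FF K m n (Function.update w (finProdFinEquiv (k, i)) b) =
      sg K (Function.update (blo w i) k b) * ∏ i' ∈ Finset.univ.erase i, sg K (blo w i') := by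
  unfold FF
  rw [← Finset.mul_prod_erase Finset.univ _ (Finset.mem_univ i), blo_update_same]
  congr 1
  refine Finset.prod_congr rfl fun i' hi' => ?_
  rw [blo_update_ne w (Finset.ne_of_mem_erase hi')]

lemma FF_ne : FF K m n ≠ 0 := by
  intro h
  have h1 := congrFun h (fun j => Fin.castAdd n (finProdFinEquiv.symm j).1)
  have h2 : ∀ i : Fin n, sg K (blo (m := m) (n := n)
      (fun j => Fin.castAdd n (finProdFinEquiv.symm j).1) i) = 1 := by
    intro i
    have e : MM K (blo (m := m) (n := n)
        (fun j => Fin.castAdd n (finProdFinEquiv.symm j).1) i) = 1 := by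
      ext k c
      show (if Fin.castAdd n (finProdFinEquiv.symm (finProdFinEquiv (k, i))).1 =
        Fin.castAdd n c then (1 : K) else 0) = _
      rw [Equiv.symm_apply_apply, Matrix.one_apply]
      by_cases hk : k = c
      · rw [if_pos hk, if_pos (by rw [hk])]
      · rw [if_neg hk, if_neg fun h => hk (Fin.castAdd_injective m n h)]
    unfold sg
    rw [e, Matrix.det_one]
  unfold FF at h1
  rw [Finset.prod_congr rfl fun i _ => h2 i, Finset.prod_const_one] at h1
  exact one_ne_zero h1

lemma FF_cnt (w : Fin (m * n) → Fin (m + n)) (hw : FF K m n w ≠ 0) : cnt w = rectW m n := by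
  funext a
  have h1 : ∀ i : Fin n, sg K (blo w i) ≠ 0 := by
    intro i h
    exact hw (Finset.prod_eq_zero (Finset.mem_univ i) h)
  unfold cnt
  have h2 : (Finset.univ.filter fun j => w j = a).card =
      ∑ i : Fin n, (Finset.univ.filter fun k => blo w i k = a).card := by
    simp only [Finset.card_filter]
    rw [← Equiv.sum_comp (finProdFinEquiv (m := m) (n := n)), Fintype.sum_prod_type,
      Finset.sum_comm]
    rfl
  rw [h2, Finset.sum_congr rfl fun i _ => card_block (h1 i) a, Finset.sum_const, Finset.card_univ,
    Fintype.card_fin]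
  unfold rectW
  split_ifs
  · rw [smul_eq_mul, mul_one]
  · rw [smul_zero]

lemma FF_rep (a b : Fin (m + n)) (hab : a < b) : rep K m a b (FF K m n) = 0 := by
  funext w
  show (∑ j : Fin (m * n), if w j = a then
    (-1 : K) ^ ((par m a + par m b) * ∑ l : Fin (m * n), if l < j then par m (w l) else 0) *
      FF K m n (Function.update w j b) else 0) = 0
  by_cases hb : (b : ℕ) < m
  · have ha : (a : ℕ) < m := lt_trans hab hb
    obtain ⟨b', rfl⟩ : ∃ c : Fin m, b = Fin.castAdd n c := ⟨⟨b, hb⟩, rfl⟩
    obtain ⟨a', rfl⟩ : ∃ c : Fin m, a = Fin.castAdd n c := ⟨⟨a, ha⟩, rfl⟩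
    have hne : a' ≠ b' := by
      rintro rfl
      exact lt_irrefl _ hab
    have hp : par m (Fin.castAdd n a') + par m (Fin.castAdd n b') = 0 := by
      unfold par
      rw [if_pos ha, if_pos hb]
    rw [hp]
    simp only [zero_mul, pow_zero, one_mul]
    rw [← Equiv.sum_comp (finProdFinEquiv (m := m) (n := n)), Fintype.sum_prod_type,
      Finset.sum_comm]
    refine Finset.sum_eq_zero fun i _ => ?_
    have h3 := block_sum (K := K) (blo w i) a' b' hne
    have h4 : ∀ k : Fin m, (if w (finProdFinEquiv (k, i)) = Fin.castAdd n a' then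
        FF K m n (Function.update w (finProdFinEquiv (k, i)) (Fin.castAdd n b')) else 0) =
        (if blo w i k = Fin.castAdd n a' then
          sg K (Function.update (blo w i) k (Fin.castAdd n b')) else 0) *
          ∏ i' ∈ Finset.univ.erase i, sg K (blo w i') := by
      intro k
      rw [FF_update, ite_mul, zero_mul]
      rfl
    rw [Finset.sum_congr rfl fun k _ => h4 k, ← Finset.sum_mul, h3, zero_mul]
  · refine Finset.sum_eq_zero fun j _ => ?_
    obtain ⟨⟨k, i⟩, rfl⟩ := (finProdFinEquiv (m := m) (n := n)).surjective j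
    have h5 : sg K (Function.update (blo w i) k b) = 0 := by
      by_contra h
      obtain ⟨c, hc⟩ := row_ne h k
      rw [Function.update_self] at hc
      apply hb
      rw [hc]
      exact c.2
    rw [FF_update, h5, zero_mul, mul_zero, ite_self]

end DET

/-- a highest weight vector of the weight of the rectangle -/
theorem t_DET : S_DET.{u} := fun K _ m n =>
  ⟨DET.FF K m n, DET.FF_ne, fun w hw => DET.FF_cnt w hw, fun a b hab => DET.FF_rep a b hab⟩

end Pool.Agent.L0h13.EF
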