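import Pool.Agent.L0h13.GP.Defs
import Pool.Agent.Y133.Half.Growth

/-!
# Universal cycles which detect the numerical dimension: definitions
-/

set_option autoImplicit false

open CategoryTheory AlgebraicGeometry Module

universe u v

namespace Pool.Agent.L0h13.EF

open Pool.Agent.H914 VarClass Obj WeilCohomology Pool.Agent.N103.OC Pool.Agent.L0h13.GP

variable {k : Type u} [Field k] {𝒱 : VarClass k} {ops : CycleOps 𝒱}

/-- The dimension of the even cohomology. -/
noncomputable def evenB (W : WeilCohomology.{u, v} ops) (X : 𝒱.Obj) : ℕ :=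
  finrank W.K (Y133.Half.PH W X 0)

/-- The dimension of the odd cohomology. -/
noncomputable def oddB (W : WeilCohomology.{u, v} ops) (X : 𝒱.Obj) : ℕ :=
  finrank W.K (Y133.Half.PH W X 1)

/-- The rank of the cycles of codimension `dim X^N` on `X^N × X^N` modulo numerical equivalence is
`β^(2N)`, up to polynomial factors. -/
def GrowsLike (ops : CycleOps 𝒱) (X : 𝒱.Obj) (β : ℕ) : Prop :=
  ∃ d : ℕ, ∀ N ≥ 1, β ^ (2 * N) ≤ (N + 1) ^ d * midRank ops (pw X N) ∧
    midRank ops (pw X N) ≤ (N + 1) ^ d * β ^ (2 * N)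

/-- The action on the cohomology of the combination `∑ z_σ σ` of permutations of the factors of
`X^(N + 1)`, a correspondence of degree `0` with rational coefficients. -/
noncomputable def zAct (W : WeilCohomology.{u, v} ops) (X : 𝒱.Obj) {N : ℕ}
    (z : Equiv.Perm (Fin (N + 1)) → ℚ) (x : W.H (Y133.Half.pw X N)) : W.H (Y133.Half.pw X N) :=
  ∑ σ, (z σ : W.K) • W.map (Y133.Half.tau X N σ) x

/-- The combination `∑ z_σ σ` of permutations of the factors of `X^(N + 1)` is homologically trivial. -/
def HomTrivialZ (W : WeilCohomology.{u, v} ops) (X : 𝒱.Obj) {N : ℕ}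
    (z : Equiv.Perm (Fin (N + 1)) → ℚ) : Prop :=
  ∀ x, zAct W X z x = 0

/-- The combination `∑ z_σ σ` of permutations of the factors of `X^(N + 1)` is numerically trivial. -/
def NumTrivialZ (W : WeilCohomology.{u, v} ops) (X : 𝒱.Obj) {N : ℕ}
    (z : Equiv.Perm (Fin (N + 1)) → ℚ) : Prop :=
  ∃ f : Module.End W.K (W.H (Y133.Half.pw X N)), (∀ x, f x = zAct W X z x) ∧
    NumTrivialOp W (Y133.Half.pw X N) f

end Pool.Agent.L0h13.EF
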