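import Pool.Agent.L0h13.EF.Stm
import Pool.Agent.L0h13.SD.HWV

/-!
# Module HWL: the values of `phi` on a space of highest weight vectors
-/

set_option autoImplicit false

namespace Pool.Agent.L0h13.EF

universe u

open Polynomial Equiv Pool.Agent.L0h13.SD

theorem t_HWL (h1 : S_XOP.{u}) (h2 : S_XHW.{u}) : S_HWL.{u} := by
  intro K _ m r N
  induction N with
  | zero =>
    intro S μ hS hμ _
    obtain ⟨F₀, hF₀, hne⟩ := Submodule.exists_mem_ne_zero_of_ne_bot hS
    obtain ⟨w, hw⟩ := Function.ne_iff.1 hne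
    refine ⟨w, ⟨F₀, hF₀, hw⟩, fun F _ => ?_⟩
    have h0 : μ = 0 := by
      rw [← hμ F₀ hF₀ w hw]
      funext a
      show (Finset.univ.filter fun i : Fin 0 => w i = a).card = 0
      simp
    have h3 : dpol K m μ = 1 := by
      rw [h0]
      unfold dpol
      simp
    rw [h3, one_mul]
    unfold phi
    rw [Fintype.sum_unique]
    have h4 : cyc (default : Perm (Fin 0)) = 0 := rfl
    rw [h4, pow_zero, mul_one]
    congr 1
    have h6 : ∀ (σ : Perm (Fin 0)), act K m (r := r) σ F w = F w := by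
      intro σ
      show (eps m σ (w ∘ σ) : K) * F (w ∘ σ) = F w
      have h5 : w ∘ σ = w := Subsingleton.elim _ _
      have h7 : eps m σ w = 1 := by
        unfold eps
        simp
      rw [h5, h7]
      simp
    exact h6 _
  | succ N ih =>
    intro S μ hS hμ hr
    classical
    have hex : (Finset.univ.filter fun c : Fin r => ∃ F ∈ S, ∃ v : Fin N → Fin r,
        F (Fin.cons c v) ≠ 0).Nonempty := by
      obtain ⟨F₀, hF₀, hne⟩ := Submodule.exists_mem_ne_zero_of_ne_bot hS
      obtain ⟨w, hw⟩ := Function.ne_iff.1 hne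
      refine ⟨w 0, Finset.mem_filter.2 ⟨Finset.mem_univ _, F₀, hF₀, Fin.tail w, ?_⟩⟩
      rw [Fin.cons_self_tail]
      exact hw
    obtain ⟨c, ⟨F₀, hF₀, v₀, hv₀⟩, hmax⟩ : ∃ c : Fin r, (∃ F ∈ S, ∃ v : Fin N → Fin r,
        F (Fin.cons c v) ≠ 0) ∧ ∀ F ∈ S, ∀ (b : Fin r) (v : Fin N → Fin r), c < b →
          F (Fin.cons b v) = 0 := by
      refine ⟨Finset.max' _ hex, (Finset.mem_filter.1 (Finset.max'_mem _ hex)).2, ?_⟩
      intro F hF b v hb
      by_contra hne
      have hb' : b ∈ Finset.univ.filter fun c : Fin r => ∃ F ∈ S, ∃ v : Fin N → Fin r,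
          F (Fin.cons c v) ≠ 0 := Finset.mem_filter.2 ⟨Finset.mem_univ _, F, hF, v, hne⟩
      have := Finset.le_max' _ b hb'
      exact absurd hb (not_lt.2 this)
    have hcnt : ∀ F ∈ S, ∀ v : Fin N → Fin r, F (Fin.cons c v) ≠ 0 →
        cnt v = Function.update μ c (cnt v₀ c) := by
      intro F hF v hv
      have e1 := hμ F hF _ hv
      have e0 := hμ F₀ hF₀ _ hv₀
      funext a
      by_cases ha : a = c
      · subst ha
        rw [Function.update_self]
        have f1 := congrFun e1 a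
        have f0 := congrFun e0 a
        rw [HWV.cnt_cons_same] at f1 f0
        omega
      · rw [Function.update_of_ne ha]
        have f1 := congrFun e1 a
        rw [HWV.cnt_cons_ne ha] at f1
        exact f1
    have hμc : μ c = cnt v₀ c + 1 := by
      have f0 := congrFun (hμ F₀ hF₀ _ hv₀) c
      rw [HWV.cnt_cons_same] at f0
      exact f0.symm
    let L : ((Fin (N + 1) → Fin r) → K) →ₗ[K] ((Fin N → Fin r) → K) :=
      { toFun := fun F v => F (Fin.cons c v)
        map_add' := fun _ _ => rfl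
        map_smul' := fun _ _ => rfl }
    obtain ⟨v, ⟨G, hG, hGv⟩, e⟩ := ih (S.map L) (Function.update μ c (cnt v₀ c))
      (by
        intro h
        have h3 : L F₀ ∈ S.map L := Submodule.mem_map_of_mem hF₀
        rw [h, Submodule.mem_bot] at h3
        exact hv₀ (congrFun h3 v₀))
      (by
        rintro _ ⟨F, hF, rfl⟩ w hw
        exact hcnt F hF w hw)
      (by
        rintro _ ⟨F, hF, rfl⟩ a b hab
        exact (h2 K m r N F μ c (hμ F hF) (hr F hF) (hmax F hF)).2 a b hab)
    obtain ⟨F₁, hF₁, rfl⟩ := hG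
    refine ⟨Fin.cons c v, ⟨F₁, hF₁, hGv⟩, fun F hF => ?_⟩
    have hX := (h2 K m r N F μ c (hμ F hF) (hr F hF) (hmax F hF)).1
    have e' := e (L F) (Submodule.mem_map_of_mem hF)
    rw [h1 K m r N F c v _ hX]
    have e'' : phi K m (fun v => F (Fin.cons c v)) v =
      dpol K m (Function.update μ c (cnt v₀ c)) * C (F (Fin.cons c v)) := e'
    rw [e'', HWV.dpol_step K m μ c _ hμc]
    ring

end Pool.Agent.L0h13.EF
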