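import Pool.Agent.L0h13.EF.Stm
import Pool.Agent.L0h13.SD.CYC

/-!
# Project EF (helper13), module RCA (helper72): the elements `om` are central
-/

set_option autoImplicit false

namespace Pool.Agent.L0h13.EF

universe u

open Polynomial Equiv Pool.Agent.L0h13.SD

namespace RCA

variable {K : Type u} [Field K]

lemma pm_om (t : K) (j N : ℕ) (τ : Perm (Fin N)) :
    pm K τ * om K t j N = om K t j N * pm K τ := by
  unfold om
  rw [Finset.mul_sum, Finset.sum_mul]
  rw [← Equiv.sum_comp (MulAut.conj τ).toEquiv (fun σ : Perm (Fin N) =>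
    ((taylor t ((X : K[X]) ^ cyc σ)).coeff j • pm K σ⁻¹) * pm K τ)]
  refine Finset.sum_congr rfl fun σ _ => ?_
  have h1 : (MulAut.conj τ).toEquiv σ = τ * σ * τ⁻¹ := rfl
  have h2 : cyc (τ * σ * τ⁻¹) = cyc σ := by
    rw [t_CYC.1 N (τ * σ) τ⁻¹, inv_mul_cancel_left]
  rw [h1, h2, mul_smul_comm, smul_mul_assoc, pm_mul, pm_mul]
  congr 2
  group

lemma om_comm (t : K) (j N : ℕ) (z : GA K N) : z * om K t j N = om K t j N * z := by
  have h : LinearMap.mulRight K (om K t j N) = LinearMap.mulLeft K (om K t j N) :=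
    lin_ext fun σ => pm_om t j N σ
  exact LinearMap.congr_fun h z

/-- the coefficient of `1` in `w * om` -/
noncomputable def cf (t : K) (j N : ℕ) : GA K N →ₗ[K] K where
  toFun w := (w * om K t j N).coeff 1
  map_add' x y := by rw [add_mul, MonoidAlgebra.coeff_add, Finsupp.add_apply]
  map_smul' c x := by
    rw [smul_mul_assoc, MonoidAlgebra.coeff_smul, Finsupp.smul_apply, RingHom.id_apply]

lemma cf_pm (t : K) (j N : ℕ) (σ : Perm (Fin N)) :
    cf t j N (pm K σ) = (taylor t ((X : K[X]) ^ cyc σ)).coeff j := by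
  show (pm K σ * om K t j N).coeff 1 = _
  unfold om
  rw [Finset.mul_sum, MonoidAlgebra.coeff_sum, Finsupp.finsetSum_apply, Finset.sum_eq_single σ]
  · rw [mul_smul_comm, pm_mul, mul_inv_cancel, MonoidAlgebra.coeff_smul, Finsupp.smul_apply, pm,
      MonoidAlgebra.coeff_single, Finsupp.single_eq_same, smul_eq_mul, mul_one]
  · intro τ _ h
    have h1 : (1 : Perm (Fin N)) ≠ σ * τ⁻¹ := fun e => h (mul_inv_eq_one.1 e.symm).symm
    rw [mul_smul_comm, pm_mul, MonoidAlgebra.coeff_smul, Finsupp.smul_apply, pm,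
      MonoidAlgebra.coeff_single, Finsupp.single_eq_of_ne h1, smul_zero]
  · intro h
    exact absurd (Finset.mem_univ σ) h

lemma coeff_pol (t : K) (j N : ℕ) (w : GA K N) :
    (taylor t (pol w)).coeff j = (w * om K t j N).coeff 1 := by
  have h : (lcoeff K j ∘ₗ taylor t ∘ₗ pol : GA K N →ₗ[K] K) = cf t j N := by
    refine lin_ext fun σ => ?_
    rw [cf_pm]
    show (taylor t (pol (pm K σ))).coeff j = _
    rw [pol, lin_pm]
  exact LinearMap.congr_fun h w

end RCA

/-- the elements `om` are central and their annihilators are contained in `JJ` -/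
theorem t_RCA : S_RCA.{u} := by
  refine ⟨fun K _ t j N z => RCA.om_comm t j N z, fun K _ t s N y hy => ?_⟩
  rw [mem_JJ]
  intro z
  rw [X_sub_C_pow_dvd_iff, ← taylor_apply, X_pow_dvd_iff]
  intro j hj
  rw [RCA.coeff_pol, mul_assoc, RCA.om_comm, ← mul_assoc, hy j hj, zero_mul]
  rfl

end Pool.Agent.L0h13.EF
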