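import Pool.Agent.L0h13.EF.Stm
import Pool.Agent.L0h13.SD.CYC

/-!
# Module RCB (helper4): the Taylor coefficients of the central element kill highest weight vectors
-/

set_option autoImplicit false

namespace Pool.Agent.L0h13.EF

universe u

open Polynomial Equiv Pool.Agent.L0h13.SD

namespace RCB

variable {K : Type u} [Field K] {m r N : ℕ}

theorem act_apply (σ : Perm (Fin N)) (F : (Fin N → Fin r) → K) (w : Fin N → Fin r) :
    act K m σ F w = (eps m σ (w ∘ σ) : K) * F (w ∘ σ) := rfl

theorem op_pm (σ : Perm (Fin N)) : op K m r (pm K σ) = act K m σ := by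
  rw [op, lin_pm]

theorem op_om (t : K) (j : ℕ) (G : (Fin N → Fin r) → K) (w : Fin N → Fin r) :
    op K m r (om K t j N) G w = (taylor t (phi K m G w)).coeff j := by
  have h1 : op K m r (om K t j N) G w =
      ∑ σ : Perm (Fin N), (taylor t ((X : K[X]) ^ cyc σ)).coeff j * act K m σ⁻¹ G w := by
    unfold om
    rw [map_sum, LinearMap.sum_apply, Finset.sum_apply]
    apply Finset.sum_congr rfl
    intro σ _
    rw [map_smul, op_pm]
    rfl
  rw [h1, phi, map_sum, finsetSum_coeff]
  apply Finset.sum_congr rfl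
  intro σ _
  rw [taylor_mul, taylor_C, coeff_C_mul]
  ring

theorem om_comm (h : S_CYC) (t : K) (j : ℕ) (σ : Perm (Fin N)) :
    pm K σ * om K t j N = om K t j N * pm K σ := by
  unfold om
  rw [Finset.mul_sum, Finset.sum_mul]
  refine Fintype.sum_equiv ((Equiv.mulLeft σ).trans (Equiv.mulRight σ⁻¹)) _ _ ?_
  intro τ
  have h1 : ((Equiv.mulLeft σ).trans (Equiv.mulRight σ⁻¹)) τ = σ * τ * σ⁻¹ := rfl
  have h2 : cyc (σ * τ * σ⁻¹) = cyc τ := by
    rw [h.1 N (σ * τ) σ⁻¹, inv_mul_cancel_left]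
  rw [h1, h2, mul_smul_comm, smul_mul_assoc, pm_mul, pm_mul]
  congr 2
  group

theorem tcoeff_zero {t : K} {s j : ℕ} {p : K[X]} (h : (X - C t) ^ s ∣ p) (hj : j < s) :
    (taylor t p).coeff j = 0 := by
  obtain ⟨q, rfl⟩ := h
  have h1 : taylor t ((X - C t) ^ s * q) = X ^ s * taylor t q := by
    rw [taylor_mul, taylor_pow, map_sub, taylor_X, taylor_C, add_sub_cancel_right]
  rw [h1, coeff_X_pow_mul', if_neg (by omega)]

theorem cnt_comp (w : Fin N → Fin r) (σ : Perm (Fin N)) : cnt (w ∘ σ) = cnt w := by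
  funext a
  have h : (Finset.univ.filter fun i => (w ∘ σ) i = a) =
      (Finset.univ.filter fun i => w i = a).map σ.symm.toEmbedding := by
    ext i
    simp
  rw [cnt, cnt, h, Finset.card_map]

theorem exists_perm {v w : Fin N → Fin r} (h : cnt v = cnt w) : ∃ σ : Perm (Fin N), v = w ∘ σ := by
  classical
  have e : ∀ c : Fin r, Nonempty ({a // v a = c} ≃ {b // w b = c}) := by
    intro c
    apply Fintype.card_eq.1
    rw [Fintype.card_subtype, Fintype.card_subtype]
    exact congrFun h c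
  refine ⟨Equiv.ofFiberEquiv fun c => (e c).some, ?_⟩
  funext a
  exact (Equiv.ofFiberEquiv_map (fun c => (e c).some) a).symm

theorem eps_ne (σ : Perm (Fin N)) (w : Fin N → Fin r) : (eps m σ w : K) ≠ 0 := by
  unfold eps
  rw [Int.cast_prod, Finset.prod_ne_zero_iff]
  intro p _
  split_ifs <;> simp

end RCB

open RCB in
/-- **RCB.** -/
theorem t_RCB (h1 : S_HWL.{u}) (h2 : S_REP.{u}) (h3 : S_OPM.{u}) : S_RCB.{u} := by
  intro K _ m r N F μ t s hμ hr hd j hj
  by_cases hF : F = 0
  · rw [hF, map_zero]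
  have hact : ∀ (σ : Perm (Fin N)) (w : Fin N → Fin r), cnt w ≠ μ → act K m σ F w = 0 := by
    intro σ w hw
    rw [act_apply]
    have h4 : F (w ∘ σ) = 0 := by
      by_contra h5
      have h6 := hμ _ h5
      rw [cnt_comp] at h6
      exact hw h6
    rw [h4, mul_zero]
  obtain ⟨S, hS⟩ : ∃ S : Submodule K ((Fin N → Fin r) → K), S = Submodule.span K (Set.range fun σ => act K m σ F) := ⟨_, rfl⟩
  have hmem : ∀ σ, act K m σ F ∈ S := by
    intro σ
    rw [hS]
    exact Submodule.subset_span ⟨σ, rfl⟩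
  have hact1 : act K m (1 : Perm (Fin N)) F = F := by
    rw [← op_pm, pm_one, (h3 K m r N 0 0).2]
    rfl
  have hSne : S ≠ ⊥ := by
    intro h
    have h4 := hmem 1
    rw [h, Submodule.mem_bot, hact1] at h4
    exact hF h4
  have hSμ : ∀ G ∈ S, ∀ w, G w ≠ 0 → cnt w = μ := by
    intro G hG w hw
    by_contra hc
    apply hw
    have h4 : S ≤ LinearMap.ker (LinearMap.proj (R := K) (φ := fun _ : Fin N → Fin r => K) w) := by
      rw [hS, Submodule.span_le]
      rintro _ ⟨σ, rfl⟩
      exact hact σ w hc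
    exact h4 hG
  have hSr : ∀ G ∈ S, ∀ a b : Fin r, a < b → rep K m a b G = 0 := by
    intro G hG a b hab
    have h4 : S ≤ LinearMap.ker (rep K m a b : Module.End K ((Fin N → Fin r) → K)) := by
      rw [hS, Submodule.span_le]
      rintro _ ⟨σ, rfl⟩
      have h5 := congrArg (fun (T : Module.End K ((Fin N → Fin r) → K)) => T F) (h2 K m r N a b σ)
      have h6 : act K m σ (rep K m a b F) = rep K m a b (act K m σ F) := h5
      rw [hr a b hab, map_zero] at h6
      exact h6.symm
    exact h4 hG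
  obtain ⟨w, ⟨G₀, hG₀, hG₀w⟩, hw⟩ := h1 K m r N S μ hSne hSμ hSr
  have hwμ : cnt w = μ := hSμ G₀ hG₀ w hG₀w
  have hzero : ∀ σ, op K m r (om K t j N) (act K m σ F) w = 0 := by
    intro σ
    rw [op_om, hw _ (hmem σ)]
    exact tcoeff_zero (hd.mul_right _) hj
  funext v
  by_cases hv : cnt v = μ
  · obtain ⟨σ, rfl⟩ := exists_perm (hv.trans hwμ.symm)
    have h4 : act K m σ (op K m r (om K t j N) F) w = 0 := by
      have h5 : act K m σ (op K m r (om K t j N) F) = op K m r (om K t j N) (act K m σ F) := by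
        rw [← op_pm σ]
        have h6 := (h3 K m r N (pm K σ) (om K t j N)).1
        have h7 := (h3 K m r N (om K t j N) (pm K σ)).1
        rw [om_comm t_CYC, h7] at h6
        exact (congrArg (fun (T : Module.End K ((Fin N → Fin r) → K)) => T F) h6).symm
      rw [h5]
      exact hzero σ
    rw [act_apply] at h4
    rcases mul_eq_zero.1 h4 with h5 | h5
    · exact absurd h5 (eps_ne σ _)
    · exact h5
  · rw [op_om, phi]
    have h4 : ∀ σ : Perm (Fin N), C (act K m σ⁻¹ F v) * (X : K[X]) ^ cyc σ = 0 := by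
      intro σ
      rw [hact _ v hv, C_0, zero_mul]
    rw [Finset.sum_eq_zero fun σ _ => h4 σ, map_zero, coeff_zero]
    rfl

end Pool.Agent.L0h13.EF
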