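import Pool.Agent.L0h13.EF.Stm

/-!
# EF, module RCT: a combination of permutations which is zero on the words with `m - 1` even and
`n - 1` odd letters only
-/

set_option autoImplicit false

namespace Pool.Agent.L0h13.EF

universe u

open Polynomial Equiv Pool.Agent.L0h13.SD

theorem t_RCT (hO : S_OPM.{u}) (hD : S_DET.{u}) (hP : S_DPR.{u}) (hA : S_RCA.{u})
    (hB : S_RCB.{u}) : S_RCT.{u} := by
  intro K _ _ m n
  have hcard : NeZero (Nat.card (Perm (Fin (m * n))) : K) := ⟨by
    rw [Nat.card_eq_fintype_card]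
    exact_mod_cast Fintype.card_ne_zero⟩
  set t : K := (m : K) - n with ht
  set s : ℕ := min m n with hs
  set I : Ideal (GA K (m * n)) := Ideal.span (Set.range fun j : Fin s => om K t j (m * n)) with hI
  obtain ⟨e, he, hIe⟩ := IsSemisimpleRing.ideal_eq_span_idempotent I
  obtain ⟨F, hF0, hFw, hFr⟩ := hD K m n
  -- the idempotent kills the vector of the rectangle
  have h1 : ∀ x ∈ I, op K m (m + n) x F = 0 := by
    intro x hx
    refine Submodule.span_induction (p := fun x _ => op K m (m + n) x F = 0) ?_ ?_ ?_ ?_ hx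
    · rintro _ ⟨j, rfl⟩
      exact hB K m (m + n) (m * n) F (rectW m n) t s hFw hFr (hP K m n) j j.2
    · rw [map_zero, LinearMap.zero_apply]
    · intro a b _ _ ha hb
      rw [map_add, LinearMap.add_apply, ha, hb, add_zero]
    · intro a b _ hb
      rw [smul_eq_mul, (hO K m (m + n) (m * n) a b).1, Module.End.mul_apply, hb, map_zero]
  have heI : e ∈ I := by
    rw [hIe]
    exact Ideal.mem_span_singleton_self e
  refine ⟨1 - e, ?_, ?_⟩
  · apply hA.2 K t s (m * n)
    intro j hj
    have h2 : om K t j (m * n) ∈ I := Ideal.subset_span ⟨⟨j, hj⟩, rfl⟩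
    rw [hIe, Ideal.mem_span_singleton'] at h2
    obtain ⟨a, ha⟩ := h2
    have h3 : om K t j (m * n) * e = om K t j (m * n) := by
      rw [← ha, mul_assoc, he.eq]
    rw [hA.1 K t j (m * n) (1 - e), mul_sub, mul_one, h3, sub_self]
  · intro h2
    apply hF0
    have h3 : op K m (m + n) (1 - e) F = 0 := by rw [h2, LinearMap.zero_apply]
    rw [map_sub, LinearMap.sub_apply, h1 e heI, sub_zero,
      (hO K m (m + n) (m * n) 1 1).2, Module.End.one_apply] at h3
    exact h3

end Pool.Agent.L0h13.EF
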