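import Pool.Agent.L0h13.EF.Defs
import Pool.Agent.L0h13.EF.RCT
import Pool.Agent.L0h13.EF.RCB
import Pool.Agent.L0h13.EF.RCA
import Pool.Agent.L0h13.EF.DET
import Pool.Agent.L0h13.EF.HWL
import Pool.Agent.L0h36.EF.DPR
import Pool.Agent.L0h13.SD.Main

/-!
# Universal cycles which detect the numerical dimension
-/

set_option autoImplicit false

open CategoryTheory AlgebraicGeometry Module

universe u v w

namespace Pool.Agent.L0h13.EF

open Polynomial Pool.Agent.L0h13.SD Pool.Agent.L0h56.SD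

theorem hRCT : S_RCT.{u} :=
  t_RCT hOPM t_DET Pool.Agent.L0h36.EF.t_DPR t_RCA
    (t_RCB (t_HWL (t_XOP t_EPS t_RES) (t_XHW t_SWO)) (t_REP t_EPS t_ADJ) hOPM)

section bc

variable {K : Type*} [Field K] [CharZero K] {N : ℕ}

lemma op_sum_single (K : Type*) [Field K] (m r : ℕ) {N : ℕ} (a : Equiv.Perm (Fin N) → K)
    (w w' : Fin N → Fin r) :
    op K m r (∑ σ, a σ • pm K σ) (Pi.single w 1) w' =
      ∑ σ, a σ * ((eps m σ (w' ∘ σ) : K) * if w' ∘ σ = w then 1 else 0) := by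
  rw [SD.op_sum]
  have h : (∑ σ, a σ • act K m (r := r) σ) (Pi.single w 1) w' =
      ∑ σ, (a σ • act K m (r := r) σ) (Pi.single w 1) w' := by
    rw [LinearMap.sum_apply, Finset.sum_apply]
  rw [h]
  refine Finset.sum_congr rfl fun σ _ => ?_
  change a σ * ((eps m σ (w' ∘ σ) : K) * (Pi.single w 1 : (Fin N → Fin r) → K) (w' ∘ σ)) = _
  rw [Pi.single_apply]

lemma op_eq_zero_iff (K : Type*) [Field K] (m r : ℕ) {N : ℕ} (y : GA K N) :
    op K m r y = 0 ↔ ∀ w w' : Fin N → Fin r, op K m r y (Pi.single w 1) w' = 0 := by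
  constructor
  · intro h w w'
    rw [h]
    rfl
  · intro h
    apply (Pi.basisFun K (Fin N → Fin r)).ext
    intro w
    rw [Pi.basisFun_apply]
    funext w'
    rw [h w w']
    rfl

lemma op_cast (m r : ℕ) (a : Equiv.Perm (Fin N) → ℚ) :
    op K m r (∑ σ, (a σ : K) • pm K σ) = 0 ↔ op ℚ m r (∑ σ, a σ • pm ℚ σ) = 0 := by
  rw [op_eq_zero_iff, op_eq_zero_iff]
  refine forall_congr' fun w => forall_congr' fun w' => ?_
  rw [op_sum_single, op_sum_single, ← Rat.cast_inj (α := K), Rat.cast_zero]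
  have h : ((∑ σ, a σ * ((eps m σ (w' ∘ σ) : ℚ) * if w' ∘ σ = w then 1 else 0) : ℚ) : K) =
      ∑ σ, (a σ : K) * ((eps m σ (w' ∘ σ) : K) * if w' ∘ σ = w then 1 else 0) := by
    rw [Rat.cast_sum]
    refine Finset.sum_congr rfl fun σ _ => ?_
    split_ifs <;> push_cast <;> rfl
  rw [h]

end bc

/-- **The universal elements.** -/
theorem exists_z (p q M : ℕ) (hM : M = p * q) : ∃ z : Equiv.Perm (Fin M) → ℚ,
    ∀ (K : Type u) [Field K] [CharZero K] (P Q : ℕ), P + q = Q + p →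
      (op K P (P + Q) (∑ σ, (z σ : K) • pm K σ) = 0 ↔ P < p) := by
  subst hM
  obtain ⟨y, hy, hne⟩ := hRCT.{0} ℚ p q
  refine ⟨fun σ => y.coeff σ, fun K _ _ P Q hPQ => ?_⟩
  rw [op_cast, sum_pm]
  have ht : (P : ℚ) - Q = (p : ℚ) - q := by
    have h1 : (P : ℚ) + q = Q + p := by exact_mod_cast hPQ
    linarith
  constructor
  · intro h
    by_contra hlt
    push Not at hlt
    have h1 := hBRR.{0} ℚ P Q _ y h
    rw [ht] at h1
    apply hne
    apply hBRL.{0} ℚ p q _ y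
    intro z
    exact (pow_dvd_pow _ (by omega)).trans (h1 z)
  · intro h
    apply hBRL.{0} ℚ P Q _ y
    rw [ht]
    intro z
    exact (pow_dvd_pow _ (by omega)).trans (hy z)

open Pool.Agent.H914 VarClass Obj WeilCohomology Pool.Agent.N190.CB Pool.Agent.N103.OC
  Pool.Agent.H447 Pool.Agent.N536.SG Pool.Agent.N536.HK Pool.Agent.L0h13.GP

section zz

variable {k : Type u} [Field k] {𝒱 : VarClass k} {ops : CycleOps 𝒱}
    (W : WeilCohomology.{u, v} ops) (X : 𝒱.Obj) {N : ℕ} (z : Equiv.Perm (Fin (N + 1)) → ℚ)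

lemma zAct_eq (x : W.H (Y133.Half.pw X N)) :
    zAct W X z x = (∑ σ, (z σ : W.K) • Y133.Half.rho W X N σ) x := by
  rw [LinearMap.sum_apply]
  rfl

lemma homTrivialZ_iff : HomTrivialZ W X z ↔ ∑ σ, (z σ : W.K) • Y133.Half.rho W X N σ = 0 := by
  constructor
  · intro h
    apply LinearMap.ext
    intro x
    rw [← zAct_eq]
    exact h x
  · intro h x
    rw [zAct_eq, h, LinearMap.zero_apply]

lemma numTrivialZ_iff : NumTrivialZ W X z ↔
    NumTrivialOp W (Y133.Half.pw X N) (∑ σ, (z σ : W.K) • Y133.Half.rho W X N σ) := by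
  constructor
  · rintro ⟨f, hf, h⟩
    have h1 : f = ∑ σ, (z σ : W.K) • Y133.Half.rho W X N σ := by
      apply LinearMap.ext
      intro x
      rw [hf, zAct_eq]
    rwa [← h1]
  · intro h
    exact ⟨_, fun x => (zAct_eq W X z x).symm, h⟩

end zz

section geo

variable {k : Type u} [Field k] {𝒱 : VarClass k} {ops : CycleOps 𝒱}
  {W : WeilCohomology.{u, v} ops} {X : 𝒱.Obj}

lemma opW_iff {m n : ℕ} (e : Basis (Fin (m + n)) W.K (W.H X))
    (he : ∀ j, e j ∈ Y133.Half.PH W X (par m j)) (N : ℕ) (y : GA W.K (N + 1)) :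
    opW W X N y = 0 ↔ op W.K m (m + n) y = 0 := by
  constructor
  · intro h
    rw [op_eq_zero_iff]
    intro w w'
    rw [← repr_opW hEPS hADJ e he N y w w', h, LinearMap.zero_apply, map_zero]
    rfl
  · exact opW_eq_zero hEPS hADJ e he N

/-- Everything about one variety. -/
theorem detect {p q N : ℕ} {z : Equiv.Perm (Fin (N + 1)) → ℚ}
    (hz : ∀ (K : Type v) [Field K] [CharZero K] (P Q : ℕ), P + q = Q + p →
      (op K P (P + Q) (∑ σ, (z σ : K) • pm K σ) = 0 ↔ P < p))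
    (h : evenB W X + q = oddB W X + p) :
    (HomTrivialZ W X z ↔ cohDim W X < p + q) ∧
    (∀ β, GrowsLike ops X β → (NumTrivialZ W X z ↔ β < p + q)) ∧
    (cohDim W X = p + q → (NilOnPowers W X ↔ ¬ NumTrivialZ W X z) ∧
      (SignStd W X → ¬ NumTrivialZ W X z)) := by
  obtain ⟨m, n, e, he⟩ := exists_pbasis W X
  obtain ⟨h1, h2, h3⟩ := even_odd_of_basis e he
  change evenDim W X + q = oddDim W X + p at h
  have hhom : HomTrivialZ W X z ↔ cohDim W X < p + q := by
    have h4 : HomTrivialZ W X z ↔ opW W X N (∑ σ, (z σ : W.K) • pm W.K σ) = 0 := by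
      rw [homTrivialZ_iff, opW_sum]
    rw [h4, opW_iff e he, hz W.K m n (by omega), h3]
    omega
  obtain ⟨β₀, hP, hb⟩ := exists_rate W X
  have hg := rankGrowth_of hb
  have hnum : NumTrivialZ W X z ↔ β₀ < p + q := by
    obtain ⟨d, m', n', h4, h5, h6, h7⟩ := hP
    have h8 : NumTrivialZ W X z ↔ ActsAsZero W.K m' n' (fun σ => (z σ : W.K)) :=
      (numTrivialZ_iff W X z).trans (h7 N fun σ => (z σ : W.K))
    have h9 : ActsAsZero W.K m' n' (fun σ => (z σ : W.K)) ↔
        op W.K m' (m' + n') (∑ σ, (z σ : W.K) • pm W.K σ) = 0 := by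
      rw [SD.op_sum, ActsAsZero]
    rw [h9, hz W.K m' n' (by omega)] at h8
    refine Iff.trans h8 ?_
    omega
  obtain ⟨d, hd⟩ := hP.le
  have hnil := nil_iff_rate (W := W) (X := X) (β := β₀) (by omega) hb
  refine ⟨hhom, fun β hβ => ?_, fun hc => ?_⟩
  · have hβ' : RankGrowth ops X β := hβ
    have h4 : β = β₀ := le_antisymm (hβ'.unique hg) (hg.unique hβ')
    rw [h4]
    exact hnum
  · have h5 : NilOnPowers W X ↔ ¬ NumTrivialZ W X z := by
      rw [hnil, hnum]
      omega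
    exact ⟨h5, fun hs => h5.1 (nil_of_sign hs)⟩

end geo

end Pool.Agent.L0h13.EF
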