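import Pool.Agent.L0h13.SD.Stm

/-!
# Statements of the modules of the project EF (effective form of the integral growth rate)

Module `X` proves `theorem t_X : S_X` (or `theorem t_X (h : S_Y.{u}) : S_X.{u}` for the given hypotheses)
in its own file `Pool/Agent/L0h13/EF/X.lean`, namespace `Pool.Agent.L0h13.EF`.
-/

set_option autoImplicit false

namespace Pool.Agent.L0h13.EF

universe u

open Polynomial Equiv Pool.Agent.L0h13.SD

/-- The weight of the rectangle: each even letter has multiplicity `n`. -/
def rectW (m n : ℕ) : Fin (m + n) → ℕ := fun a => if (a : ℕ) < m then n else 0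

/-- The coefficients of `(u - t)^j` in `∑ u^(number of cycles of σ) σ⁻¹`. -/
noncomputable def om (K : Type*) [Field K] (t : K) (j N : ℕ) : GA K N :=
  ∑ σ : Perm (Fin N), (taylor t ((X : K[X]) ^ cyc σ)).coeff j • pm K σ⁻¹

/-- HWL (helper13). The values of `phi` on a space of highest weight vectors. -/
def S_HWL : Prop := ∀ (K : Type u) [Field K] (m r N : ℕ) (S : Submodule K ((Fin N → Fin r) → K))
  (μ : Fin r → ℕ), S ≠ ⊥ → (∀ F ∈ S, ∀ w, F w ≠ 0 → cnt w = μ) →
  (∀ F ∈ S, ∀ a b : Fin r, a < b → rep K m a b F = 0) →
  ∃ w, (∃ F ∈ S, F w ≠ 0) ∧ ∀ F ∈ S, phi K m F w = dpol K m μ * C (F w)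

/-- DET. A highest weight vector of the weight of the rectangle. Hint: `F w = ∏ (i < n) sgn (block i of w)`,
where the blocks are the `n` subwords of length `m` and the sign is `0` if the block is not a bijection to
the letters `< m`. For `b ≥ m` the word `update w j b` contains the letter `b`; for `a < b < m` the
terms cancel in pairs in each block (the block has to contain `a` twice). -/
def S_DET : Prop := ∀ (K : Type u) [Field K] (m n : ℕ),
  ∃ F : (Fin (m * n) → Fin (m + n)) → K, F ≠ 0 ∧ (∀ w, F w ≠ 0 → cnt w = rectW m n) ∧
    ∀ a b : Fin (m + n), a < b → rep K m a b F = 0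

/-- DPR. The order of vanishing of the content polynomial of the rectangle: the factors for the letter
`m - 1 - i` and `l = n - 1 - i`, `i < min m n`. -/
def S_DPR : Prop := ∀ (K : Type u) [Field K] (m n : ℕ),
  (X - C ((m : K) - n)) ^ min m n ∣ dpol K m (rectW m n)

/-- RCA. The elements `om` are central, and their annihilators are contained in `JJ`: the coefficient of
`(u - t)^j` in `pol (y z)` is the coefficient of the permutation `1` in `y z om_j = y om_j z`. -/
def S_RCA : Prop := (∀ (K : Type u) [Field K] (t : K) (j N : ℕ) (z : GA K N),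
    z * om K t j N = om K t j N * z) ∧
  ∀ (K : Type u) [Field K] (t : K) (s N : ℕ) (y : GA K N), (∀ j < s, y * om K t j N = 0) →
    y ∈ JJ t s N

/-- RCB. The elements `om_j`, `j < s`, kill the highest weight vectors if `(u - t)^s` divides the
content polynomial. Proof: apply HWL to the span `S` of the `act σ F` (by REP highest weight vectors; the
weight is invariant): there is a word `w` with `phi G w = dpol μ * C (G w)` for all `G ∈ S`. For
`G = act σ F` the `j`-th Taylor coefficient at `t` of the left side is `op (om_j) (act σ F) w =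
act σ (op (om_j) F) w = ± op (om_j) F (w ∘ σ)`. So `op (om_j) F` vanishes at all words of content `μ`
(they are the `w ∘ σ`), and at the other ones because of the weight. -/
def S_RCB : Prop := ∀ (K : Type u) [Field K] (m r N : ℕ) (F : (Fin N → Fin r) → K)
  (μ : Fin r → ℕ) (t : K) (s : ℕ), (∀ w, F w ≠ 0 → cnt w = μ) →
  (∀ a b : Fin r, a < b → rep K m a b F = 0) → (X - C t) ^ s ∣ dpol K m μ →
  ∀ j < s, op K m r (om K t j N) F = 0

/-- RCT. There is a combination of permutations which is zero on the words with `m - 1` even and `n - 1`
odd letters, but not with `m` even and `n` odd letters. Proof from OPM, DET, DPR, RCA, RCB: the group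
algebra is semisimple, so the left ideal generated by the `om_j`, `j < min m n`, is generated by an
idempotent `e` (`IsSemisimpleRing.ideal_eq_span_idempotent`); take `y = 1 - e`: `om_j = om_j e` gives
`om_j y = 0 = y om_j`, and `op e F = 0` for the vector `F` of DET by RCB, so `op y F = F ≠ 0`. -/
def S_RCT : Prop := ∀ (K : Type u) [Field K] [CharZero K] (m n : ℕ),
  ∃ y : GA K (m * n), y ∈ JJ ((m : K) - n) (min m n) (m * n) ∧ op K m (m + n) y ≠ 0

end Pool.Agent.L0h13.EF
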